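import Pool.Agent.H34.GA.Targets1

/-!
MP_52e316_nt, board ga, row CIR: a circle avoiding the zeros.
-/

set_option autoImplicit false

namespace Pool.Agent.H68.GA

open Pool.Agent.H34.GA

theorem pf_CIR : T_CIR := by
  intro κ _ ρ s0 ε B L hε hε1 hB hL h
  classical
  obtain ⟨K, hK⟩ : ∃ K : ℕ, K = Fintype.card κ := ⟨_, rfl⟩
  rw [← hK]
  have hK0 : (0 : ℝ) < (K : ℝ) + 1 := by positivity
  obtain ⟨d, hd⟩ : ∃ d : ℝ, d = ε / (4 * ((K : ℝ) + 1)) := ⟨_, rfl⟩
  have hd0 : 0 < d := by rw [hd]; positivity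
  have hdK : 4 * ((K : ℝ) + 1) * d = ε := by
    rw [hd]
    field_simp
  have hinv : (4 * ((K : ℝ) + 1) / ε) = d⁻¹ := by
    rw [hd, inv_div]
  -- a good radius
  obtain ⟨j, hj⟩ : ∃ j : Fin (K + 1), ∀ k : κ, d ≤ |4 * d * (j : ℝ) - ‖ρ k - s0‖| := by
    by_contra hc
    push Not at hc
    choose f hf using hc
    have hinj : Function.Injective f := by
      intro a b hab
      have h1 := abs_lt.1 (hf a)
      have h2 := abs_lt.1 (hf b)
      rw [hab] at h1
      by_contra hne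
      have hne' : (a : ℕ) ≠ (b : ℕ) := fun e => hne (Fin.ext e)
      rcases lt_or_gt_of_ne hne' with hlt | hlt
      · have h3 : ((a : ℕ) : ℝ) + 1 ≤ ((b : ℕ) : ℝ) := by exact_mod_cast hlt
        nlinarith
      · have h3 : ((b : ℕ) : ℝ) + 1 ≤ ((a : ℕ) : ℝ) := by exact_mod_cast hlt
        nlinarith
    have h1 := Fintype.card_le_of_injective f hinj
    rw [Fintype.card_fin] at h1
    omega
  obtain ⟨r, hr⟩ : ∃ r : ℝ, r = 4 * d * (j : ℝ) := ⟨_, rfl⟩
  rw [← hr] at hj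
  have hr0 : 0 ≤ r := by rw [hr]; positivity
  have hrε : r ≤ ε := by
    have h1 : ((j : ℕ) : ℝ) ≤ (K : ℝ) + 1 := by
      have : (j : ℕ) ≤ K + 1 := j.2.le
      exact_mod_cast this
    rw [hr, ← hdK]
    nlinarith
  -- the bound on the circle
  have hcirc : ∀ s : ℂ, ‖s - s0‖ = r → ‖L s‖ ≤ B * (d⁻¹) ^ K := by
    intro s hs
    have h1 := h s (by rw [hs]; exact hrε)
    have h2 : d ^ K ≤ ∏ k, ‖s - ρ k‖ := by
      rw [hK, ← Finset.card_univ, ← Finset.prod_const]
      refine Finset.prod_le_prod (fun _ _ => hd0.le) (fun k _ => (hj k).trans ?_)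
      rw [← hs]
      have h3 := abs_norm_sub_norm_le (s - s0) (ρ k - s0)
      have e : s - s0 - (ρ k - s0) = s - ρ k := by ring
      rwa [e] at h3
    have h4 : ‖L s‖ * d ^ K ≤ B := (mul_le_mul_of_nonneg_left h2 (norm_nonneg _)).trans h1
    rw [inv_pow, ← div_eq_mul_inv, le_div_iff₀ (pow_pos hd0 _)]
    exact h4
  rw [hinv]
  rcases hr0.eq_or_lt with h0 | h0
  · exact hcirc s0 (by rw [sub_self, norm_zero]; exact h0)
  · refine Complex.norm_le_of_forall_mem_frontier_norm_le (U := Metric.ball s0 r)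
      Metric.isBounded_ball hL.diffContOnCl ?_ (subset_closure (Metric.mem_ball_self h0))
    intro z hz
    rw [frontier_ball s0 h0.ne'] at hz
    exact hcirc z (by rw [← dist_eq_norm]; exact hz)

end Pool.Agent.H68.GA
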