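import Pool.Agent.H34.GA.Defs
import Pool.Agent.H19.GZ.CUB
import Pool.Agent.H47.GU.OSU

/-!
MP_52e316_nt, board ga: a cusp form with a uniform Lipschitz constant is small where a gap is large.
-/

set_option autoImplicit false

namespace Pool.Agent.H68.GA

open MeasureTheory Pool.Agent.H34.GM Pool.Agent.H34.GZ Pool.Agent.H34.GU Pool.Agent.H34.GA

theorem det_one_nk {m : ℕ} (c : ℝ) (k : ℕ) (u : V m) : (1 + c • nk (m := m) k u).det = 1 := by
  have hlow : ∀ s t : Fin m, s < t → (1 + c • nk (m := m) k u) s t = 0 := by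
    intro s t hst
    have h2 : ¬ ((t : ℕ) < k ∧ k ≤ (s : ℕ)) := by
      intro h3
      have h4 : (s : ℕ) < (t : ℕ) := hst
      omega
    have h3 : nk (m := m) k u s t = 0 := if_neg h2
    show (1 : Mat m) s t + c * nk (m := m) k u s t = 0
    rw [h3, Matrix.one_apply_ne hst.ne, mul_zero, add_zero]
  rw [Matrix.det_of_isLowerTriangular _ (fun s t hst => hlow s t hst)]
  apply Finset.prod_eq_one
  intro s _
  have h2 : ¬ ((s : ℕ) < k ∧ k ≤ (s : ℕ)) := by omega
  have h3 : nk (m := m) k u s s = 0 := if_neg h2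
  show (1 : Mat m) s s + c * nk (m := m) k u s s = 1
  rw [h3, Matrix.one_apply_eq, mul_zero, add_zero]

/-- a cusp form with a uniform Lipschitz constant is small where a gap is large -/
theorem dcy_of_lip {m N : ℕ} [NeZero N] {F : Mat m → VN m N → ℂ}
    (hc : ∀ x, ContinuousOn (fun g => F g x) {g | g.det ≠ 0})
    (hb : ∃ B : ℝ, ∀ g x, g.det ≠ 0 → ‖F g x‖ ≤ B)
    (hcusp : ∀ k : ℕ, 0 < k → k < m → ∀ g x, g.det ≠ 0 →
      ∫ u in Set.Icc (0 : V m) 1, F ((1 + (N : ℝ) • nk k u) * g) x = 0)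
    (hl : ∃ B : ℝ, ∀ (g w : Mat m) (x : VN m N), g.det ≠ 0 → 2 * m * sz (w - 1) ≤ 1 →
      ‖F (g * w) x - F g x‖ ≤ B * sz (w - 1)) :
    ∃ B : ℝ, ∀ (b n : Mat m) (a : Fin m → ℝ) (k : Mat m), Sgl b n a k →
      ∀ i j : Fin m, (i : ℕ) + 1 = j → ∀ x, ‖F b x‖ ≤ B * (a i / a j) := by
  obtain ⟨M, hM⟩ := hb
  obtain ⟨B0, hB0⟩ := hl
  obtain ⟨Bu, hBu, hU⟩ := Pool.Agent.H19.GZ.pf_CUB m
  refine ⟨max B0 0 * Bu * N + max M 0 * (2 * m * Bu) * N, ?_⟩
  intro b n a k hS i j hij x
  have hbd : b.det ≠ 0 := Pool.Agent.H47.GU.det_Sgl hS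
  have haj : 0 < a j := hS.pos j
  have hai : 0 < a i := hS.pos i
  have hN0 : (0 : ℝ) < N := by exact_mod_cast Nat.pos_of_ne_zero (NeZero.ne N)
  obtain ⟨τ, hτ⟩ : ∃ τ : ℝ, τ = N * a i / a j := ⟨_, rfl⟩
  have hτ0 : 0 < τ := by rw [hτ]; positivity
  have e0 : (max B0 0 * Bu * N + max M 0 * (2 * m * Bu) * N) * (a i / a j) =
      max B0 0 * (Bu * τ) + max M 0 * (2 * m * (Bu * τ)) := by
    rw [hτ]
    ring
  rw [e0]
  have hp1 : 0 ≤ max B0 0 * (Bu * τ) := by positivity
  have hp2 : 0 ≤ max M 0 * (2 * m * (Bu * τ)) := by positivity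
  by_cases hcase : 2 * m * (Bu * τ) ≤ 1
  · have hdiff : ∀ u ∈ Set.Icc (0 : V m) 1,
        ‖F b x - F ((1 + (N : ℝ) • nk j u) * b) x‖ ≤ max B0 0 * (Bu * τ) := by
      intro u hu
      obtain ⟨e1, e2, e3⟩ := hU N b n a k hS i j hij u hu
      rw [e1]
      have e3' : sz (b⁻¹ * (1 + (N : ℝ) • nk j u) * b - 1) ≤ Bu * τ := by
        rw [hτ]
        exact e3
      have hs0 : 0 ≤ sz (b⁻¹ * (1 + (N : ℝ) • nk j u) * b - 1) := norm_nonneg _
      have h3 := hB0 b (b⁻¹ * (1 + (N : ℝ) • nk j u) * b) x hbd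
        ((mul_le_mul_of_nonneg_left e3' (by positivity)).trans hcase)
      rw [norm_sub_rev]
      refine h3.trans ?_
      exact mul_le_mul (le_max_left _ _) e3' hs0 (le_max_right _ _)
    have hz := hcusp (j : ℕ) (by omega) j.2 b x hbd
    have hcont : ContinuousOn (fun u : V m => F ((1 + (N : ℝ) • nk j u) * b) x)
        (Set.Icc (0 : V m) 1) := by
      have h2 : Continuous (fun u : V m => (1 + (N : ℝ) • nk (m := m) j u) * b) := by
        have h3 := Pool.Agent.H47.GU.nk_cont m (j : ℕ)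
        fun_prop
      refine (hc x).comp h2.continuousOn ?_
      intro u _
      show ((1 + (N : ℝ) • nk (m := m) j u) * b).det ≠ 0
      rw [Matrix.det_mul, det_one_nk, one_mul]
      exact hbd
    have hint : IntegrableOn (fun u : V m => F ((1 + (N : ℝ) • nk j u) * b) x)
        (Set.Icc (0 : V m) 1) := hcont.integrableOn_compact isCompact_Icc
    have h2 : ∫ u in Set.Icc (0 : V m) 1,
        (F b x - F ((1 + (N : ℝ) • nk j u) * b) x) = F b x := by
      have i1 : Integrable (fun _ : V m => F b x)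
          ((volume : Measure (V m)).restrict (Set.Icc (0 : V m) 1)) :=
        integrableOn_const (by rw [Pool.Agent.H47.GU.vol_box]; exact ENNReal.one_ne_top)
      rw [integral_sub i1 hint, hz, sub_zero, setIntegral_const,
        Measure.real, Pool.Agent.H47.GU.vol_box, ENNReal.toReal_one, one_smul]
    have h3 := norm_setIntegral_le_of_norm_le_const (μ := (volume : Measure (V m)))
      (s := Set.Icc (0 : V m) 1) (f := fun u : V m =>
        F b x - F ((1 + (N : ℝ) • nk j u) * b) x)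
      (by rw [Pool.Agent.H47.GU.vol_box]; exact ENNReal.one_lt_top) hdiff
    rw [h2, Measure.real, Pool.Agent.H47.GU.vol_box, ENNReal.toReal_one, mul_one] at h3
    linarith
  · have h1 : max M 0 * 1 ≤ max M 0 * (2 * m * (Bu * τ)) :=
      mul_le_mul_of_nonneg_left (not_le.1 hcase).le (le_max_right _ _)
    have h2 : ‖F b x‖ ≤ max M 0 := (hM b x hbd).trans (le_max_left _ _)
    linarith

end Pool.Agent.H68.GA
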