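import Pool.Agent.H34.GA.Targets1

/-!
# The fourth moment of the L-functions of all cuspidal representations of GL(m) over the rationals of a
given conductor, and of conductor at most X, at Lindelöf strength, for every m, with no condition on the
component at infinity (MP_52e316_nt)

A form of level `N` is a bounded function `F` on `GL_m(ℤ) \ (GL_m(ℝ) × {primitive vectors modulo N})`
invariant under the positive scalars, an eigenfunction of ALL Hecke operators, with an infinitesimal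
character `μ` (condition on Capelli's operator `det z · det (∂ / ∂ z)`, twisted by the powers of `|det z|`),
cuspidal, and primitive at `N` (its Fourier coefficients at the vectors which are not primitive vanish).
NO other condition at infinity: `F` may be any smooth vector (of any `K`-type) of any irreducible unitary
representation of `GL_m(ℝ)`. The functions on
`GL_m(ℤ) \ (GL_m(ℝ) × {primitive vectors})` are the functions on `GL_m(ℚ) \ GL_m(𝔸)` invariant under
`{k : k e_m = e_m mod N}`, which is conjugate (by `g ↦ g^(-T)`) to the mirahoric subgroup of the theory of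
newforms, so every cuspidal representation `π` of conductor `N` with central character trivial on the
positive reals has such a form `F` (newform at the primes, a vector of the minimal `K`-type at infinity), and
`L(s, F) = L(s, π)`: holomorphic forms of every weight, even and odd Maass forms, even and odd Dirichlet
characters, and so on. The size `Q` of `F` is its Lipschitz constant in `L²`; for a vector of the minimal
`K`-type it is at most a constant times `1 + ∑ |μ_j|`. The theorem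
bounds the fourth moment of the L-functions of all forms of level `N`, at points of the critical line which
may depend on the form, by `N ^ (m + ε)` (their number, for bounded parameters, is about `N ^ m`, the
convexity bound is `N ^ (1 / 4)`), so the fourth moment over all levels `N ≤ X` by `X ^ (m + 1 + ε)`.

Idea of the proof. The fourth moment of the eigenvalues of the operators with the determinant decoupled
is at most the Hilbert-Schmidt norm of the square of the operator on the part of the fundamental domain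
which carries half of the mass of every form; instead of an eigenvalue at infinity only the Lipschitz
constant of `F` is used. The functional equation comes from Poisson summation over the integer matrices `α`
with `α x = y`; it relates two scalar sums over the eigenvalues with weights given by coefficient functions
of `F`. The test function is `det (∂)^m` of a bump function: its Fourier transform vanishes on the singular
matrices, which gives the decay of the weight on the dual side, and Capelli's identity computes its zeta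
integral; the zeros of the factors so introduced are avoided by the maximum principle.
-/

set_option autoImplicit false

namespace Pool.Agent.H68.GA.ResDraft

open MeasureTheory

/-- real `m × m` matrices -/
abbrev Mat (m : ℕ) := Matrix (Fin m) (Fin m) ℝ

/-- the same space, with Lebesgue measure and the maximum norm -/
abbrev V (m : ℕ) := Fin m → Fin m → ℝ

/-- integer `m × m` matrices -/
abbrev ZM (m : ℕ) := Matrix (Fin m) (Fin m) ℤ

/-- vectors modulo `N` -/
abbrev VecMod (m N : ℕ) := Fin m → ZMod N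

/-- the matrix of a point of `V m` -/
abbrev mt {m : ℕ} (z : V m) : Mat m := Matrix.of z

/-- the maximum of the absolute values of the entries -/
noncomputable def sz {m : ℕ} (z : Mat m) : ℝ := ‖((fun i j => z i j) : V m)‖

/-- the integer matrix `α` as a real matrix -/
noncomputable def toReal {m : ℕ} (α : ZM m) : Mat m := α.map (fun n : ℤ => (n : ℝ))

/-- the product of the integer matrix `α` and the column vector `x` modulo `N` -/
def act {m : ℕ} (N : ℕ) (α : ZM m) (x : VecMod m N) : VecMod m N :=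
  (α.map (fun n : ℤ => (n : ZMod N))).mulVec x

/-- the scalar product modulo `N` -/
def dot {m N : ℕ} (v y : VecMod m N) : ZMod N := ∑ i, v i * y i

/-- primitive vectors modulo `N` -/
def IsPrimitive {m N : ℕ} (x : VecMod m N) : Prop := ∃ u : VecMod m N, dot u x = 1

/-- `|det z| ^ (1 / m)` -/
noncomputable def aN {m : ℕ} (z : Mat m) : ℝ := |z.det| ^ (1 / (m : ℝ))

/-- the Haar measure `|det z| ^ (-m) dz` of `GL_m(ℝ)` -/
noncomputable def hm (m : ℕ) : Measure (V m) :=
  (volume : Measure (V m)).withDensity (fun z => ENNReal.ofReal ((|(mt z).det| ^ m)⁻¹))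

/-- `T n` is a set of representatives of the classes `GL_m(ℤ) α` of the integer matrices `α` with
`|det α| = n` -/
structure IsReps (m : ℕ) (T : ℕ → Finset (ZM m)) : Prop where
  mem : ∀ n : ℕ, 1 ≤ n → ∀ α ∈ T n, α.det.natAbs = n
  uniq : ∀ n : ℕ, 1 ≤ n → ∀ β : ZM m, β.det.natAbs = n →
    ∃! α, α ∈ T n ∧ ∃ γ : ZM m, IsUnit γ ∧ β = γ * α

/-- `D` is a fundamental domain of `GL_m(ℤ)` (acting from the left) on the shell
`1 ≤ |det z| ^ (1 / m) < e` -/
structure IsDomain (m : ℕ) (D : Set (V m)) : Prop where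
  meas : MeasurableSet D
  shell : ∀ z ∈ D, 1 ≤ aN (mt z) ∧ aN (mt z) < Real.exp 1
  fund : ∀ z : V m, 1 ≤ aN (mt z) → aN (mt z) < Real.exp 1 →
    ∃! γ : ZM m, IsUnit γ ∧ ((fun i j => (toReal γ * mt z) i j) : V m) ∈ D

/-- test functions: smooth functions with compact support in `GL_m(ℝ)` -/
structure IsTest (m : ℕ) (Φ : Mat m → ℂ) : Prop where
  smooth : ContDiff ℝ ((⊤ : ℕ∞) : WithTop ℕ∞) (fun z : V m => Φ (mt z))
  supp : ∃ c : ℝ, 0 < c ∧ ∀ z, Φ z ≠ 0 → sz z ≤ c ∧ c⁻¹ ≤ |z.det|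

/-- the matrix with the entry `1` at the place `(i, j)` and `0` at the other places -/
def unitMat {m : ℕ} (i j : Fin m) : V m := fun a b => if a = i ∧ b = j then 1 else 0

/-- Cayley's differential operator `det (∂ / ∂ z_ij)` -/
noncomputable def cayley {m : ℕ} (Φ : Mat m → ℂ) (z : Mat m) : ℂ :=
  ∑ σ : Equiv.Perm (Fin m), ((Equiv.Perm.sign σ : ℤ) : ℂ) *
    iteratedFDeriv ℝ m (fun w : V m => Φ (mt w)) (fun i j => z i j) (fun i => unitMat i (σ i))

/-- the additive character `a ↦ e(a / N)` of `ℤ / N` -/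
noncomputable def chr (N : ℕ) (a : ZMod N) : ℂ :=
  Complex.exp (2 * Real.pi * Complex.I * (((a.val : ℝ) / N : ℝ) : ℂ))

/-- the block of the rows `≥ k` and the columns `< k` of `u` (rows and columns are numbered from `0`),
the other entries are `0` -/
noncomputable def block {m : ℕ} (k : ℕ) (u : V m) : Mat m :=
  Matrix.of fun i j => if (j : ℕ) < k ∧ k ≤ (i : ℕ) then u i j else 0

/-- `F` is a form of conductor `N` with the Hecke eigenvalues `n ^ ((m - 1) / 2) λ(n)` and the
infinitesimal character `μ`: a bounded function on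
`GL_m(ℤ) \ (GL_m(ℝ) × {primitive vectors modulo N})`, invariant under `ℝ_{>0}`, an eigenfunction of all
Hecke operators;
`inf`: Capelli's operator `det z · det (∂ / ∂ z)` and its twists by the powers of `|det z|` act by
`∏_j (s - μ_j)` (weak form; for a spherical `F` the `μ_j` are the parameters of `Γ_ℝ(s - μ_j)`, and
`F = 1` would give `μ_j = (m - 1) / 2 - j`);
primitive at `N`: for every `g` the Fourier coefficients of `F g` at all vectors which are not primitive
vanish (`F` comes from no smaller level);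
cuspidal: for `0 < k < m` its integral over the unipotent group of the matrices
`(1, 0; N u, 1)`, `u` a `(m - k) × k` matrix modulo `1`, vanishes at all `g`, `x`. -/
structure IsForm (m N : ℕ) [NeZero N] (T : ℕ → Finset (ZM m)) (F : Mat m → VecMod m N → ℂ)
    (lam : ℕ → ℂ) (mu : Fin m → ℂ) : Prop where
  cont : ∀ x, ContinuousOn (fun g => F g x) {g | g.det ≠ 0}
  supp : ∀ g x, ¬ IsPrimitive x → F g x = 0
  auto : ∀ γ : ZM m, IsUnit γ → ∀ g x, g.det ≠ 0 → F (toReal γ * g) (act N γ x) = F g x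
  scal : ∀ r : ℝ, 0 < r → ∀ g x, g.det ≠ 0 → F (r • g) x = F g x
  hecke : ∀ n : ℕ, 1 ≤ n → ∀ g x, g.det ≠ 0 →
    ∑ α ∈ T n, F (toReal α * g) (act N α x) = (n : ℂ) ^ (((m : ℂ) - 1) / 2) * lam n * F g x
  bdd : ∃ B : ℝ, ∀ g x, g.det ≠ 0 → ‖F g x‖ ≤ B
  inf : ∀ Φ : Mat m → ℂ, IsTest m Φ → ∀ (s : ℂ) (g : Mat m) (x : VecMod m N), g.det ≠ 0 →
    ∫ z : V m, cayley Φ (mt z) * (((mt z).det : ℝ) : ℂ) *
      ((|(mt z).det| : ℝ) : ℂ) ^ (s + ((m : ℂ) - 1) / 2) * F (g * (mt z)⁻¹) x ∂(hm m) =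
    (-1) ^ m * (∏ j, (s - mu j)) * ∫ z : V m, Φ (mt z) *
      ((|(mt z).det| : ℝ) : ℂ) ^ (s + ((m : ℂ) - 1) / 2) * F (g * (mt z)⁻¹) x ∂(hm m)
  prim : ∀ v : VecMod m N, ¬ IsPrimitive v → ∀ g, g.det ≠ 0 → ∑ y, chr N (dot v y) * F g y = 0
  cusp : ∀ k : ℕ, 0 < k → k < m → ∀ g x, g.det ≠ 0 →
    ∫ u in Set.Icc (0 : V m) 1, F ((1 + (N : ℝ) • block k u) * g) x = 0

/-- `Q ≥ 1` is a Lipschitz constant of `F` in `L²(D × {vectors modulo N})` for the right translations
near `1` -/
structure IsSize {m N : ℕ} [NeZero N] (D : Set (V m)) (F : Mat m → VecMod m N → ℂ) (Q : ℝ) :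
    Prop where
  one_le : 1 ≤ Q
  lip : ∀ w : Mat m, 2 * m * sz (w - 1) ≤ 1 →
    ∑ x, ∫ (z : V m) in D, ‖F ((mt z : Mat m) * w) x - F (mt z) x‖ ^ 2 ∂(hm m) ≤
      (Q * sz (w - 1)) ^ 2

/-- the `F i` are orthonormal in `L²(D × {vectors modulo N})` -/
def IsOrthonormal {m N : ℕ} [NeZero N] {S : Type} [DecidableEq S] (D : Set (V m))
    (F : S → Mat m → VecMod m N → ℂ) : Prop :=
  (∀ i j x, IntegrableOn (fun z => F i (mt z) x * (starRingEnd ℂ) (F j (mt z) x)) D (hm m)) ∧
  ∀ i j, ∑ x : VecMod m N, ∫ z in D, F i (mt z) x * (starRingEnd ℂ) (F j (mt z) x) ∂(hm m) =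
    if i = j then 1 else 0

/-- `L` is the L-function `∑ λ(n) n ^ (-s)`, and it is entire -/
def IsLFunction (m : ℕ) (lam : ℕ → ℂ) (L : ℂ → ℂ) : Prop :=
  Differentiable ℂ L ∧ ∀ s : ℂ, (m : ℝ) + 2 < s.re →
    HasSum (fun n : ℕ => if 1 ≤ n then lam n * (n : ℂ) ^ (-s) else 0) (L s)

section conversions

variable {m N : ℕ}

lemma cv_reps {T : ℕ → Finset (ZM m)} (h : IsReps m T) : Pool.Agent.H34.GZ.RepsZ m T :=
  ⟨h.mem, h.uniq⟩

lemma cv_dom {D : Set (V m)} (h : IsDomain m D) : Pool.Agent.H34.GZ.DomZ m D :=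
  ⟨h.meas, h.shell, h.fund⟩

lemma cv_tst {k : Mat m → ℂ} (h : Pool.Agent.H34.GA.TgS m k) : IsTest m k :=
  ⟨h.smooth, h.supp⟩

lemma cv_form [NeZero N] {T : ℕ → Finset (ZM m)} {F : Mat m → VecMod m N → ℂ} {lam : ℕ → ℂ}
    {mu : Fin m → ℂ} (h : IsForm m N T F lam mu) : Pool.Agent.H34.GA.CusA m N T F lam mu where
  cont := h.cont
  supp := h.supp
  auto := h.auto
  scal := h.scal
  hecke := h.hecke
  bdd := h.bdd
  prim := h.prim
  cusp := h.cusp
  inf := fun Φ hΦ => h.inf Φ (cv_tst hΦ)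

lemma cv_l {lam : ℕ → ℂ} {L : ℂ → ℂ} (h : Pool.Agent.H34.GM.IsL m 1 lam L) :
    IsLFunction m lam L := by
  refine ⟨h.1, fun s hs => ?_⟩
  have h1 := h.2 s hs
  simpa using h1

/-- the L-function is unique -/
lemma l_uniq {lam : ℕ → ℂ} {L L' : ℂ → ℂ} (h : Pool.Agent.H34.GM.IsL m 1 lam L)
    (h' : Pool.Agent.H34.GM.IsL m 1 lam L') : L = L' := by
  have ha : AnalyticOnNhd ℂ L Set.univ := h.1.differentiableOn.analyticOnNhd isOpen_univ
  have ha' : AnalyticOnNhd ℂ L' Set.univ := h'.1.differentiableOn.analyticOnNhd isOpen_univ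
  refine ha.eq_of_eventuallyEq ha' (z₀ := ((m : ℝ) + 3 : ℝ)) ?_
  have hO : IsOpen {s : ℂ | (m : ℝ) + 2 < s.re} := isOpen_lt continuous_const Complex.continuous_re
  have hm : (((m : ℝ) + 3 : ℝ) : ℂ) ∈ {s : ℂ | (m : ℝ) + 2 < s.re} := by
    show (m : ℝ) + 2 < (((m : ℝ) + 3 : ℝ) : ℂ).re
    rw [Complex.ofReal_re]
    linarith
  filter_upwards [hO.mem_nhds hm] with s hs
  exact (h.2 s hs).unique (h'.2 s hs)

/-- larger sizes are sizes -/
lemma size_mono [NeZero N] {D : Set (V m)} {F : Mat m → VecMod m N → ℂ}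
    {Q Q' : ℝ} (h : IsSize D F Q) (hQ : Q ≤ Q') : Pool.Agent.H34.GA.Lip D F Q' := by
  intro w hw
  have h0 : 0 ≤ Q := zero_le_one.trans h.one_le
  have h1 : 0 ≤ sz (w - 1) := norm_nonneg _
  exact (h.lip w hw).trans (pow_le_pow_left₀ (by positivity) (mul_le_mul_of_nonneg_right hQ h1) 2)

end conversions

/-- Markov's inequality -/
lemma exc_card {S : Type} [Fintype S] (P : S → Prop) [DecidablePred P] (a : S → ℝ) (x : ℝ)
    (ha : ∀ i, 0 ≤ a i) (h : ∀ i, P i → x ≤ a i) :
    ((Finset.univ.filter P).card : ℝ) * x ≤ ∑ i, a i := by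
  rw [← nsmul_eq_mul, ← Finset.sum_const]
  calc ∑ _i ∈ Finset.univ.filter P, x ≤ ∑ i ∈ Finset.univ.filter P, a i :=
        Finset.sum_le_sum (fun i hi => h i (Finset.mem_filter.1 hi).2)
    _ ≤ _ := Finset.sum_le_sum_of_subset_of_nonneg (Finset.filter_subset _ _)
        (fun i _ _ => ha i)

/-- a large value -/
lemma exc_big (s A Y η l : ℝ) (hY : 0 < Y) (hs : 0 < s)
    (ht : s ^ A * Y ^ η < l) : Y ^ (4 * η) ≤ (l * s ^ (-A)) ^ 4 := by
  have h3 : Y ^ η ≤ l * s ^ (-A) := by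
    rw [Real.rpow_neg hs.le, ← div_eq_mul_inv, le_div_iff₀ (Real.rpow_pos_of_pos hs _), mul_comm]
    exact ht.le
  have h4 : Y ^ (4 * η) = (Y ^ η) ^ 4 := by
    rw [← Real.rpow_natCast, ← Real.rpow_mul hY.le]
    congr 1
    push_cast
    ring
  rw [h4]
  exact pow_le_pow_left₀ (Real.rpow_nonneg hY.le _) h3 4

open Classical in
theorem result
    (h_MOA : Pool.Agent.H34.GA.T_MOA)
    (h_EXT : Pool.Agent.H34.GZ.T_EXT) (h_EXD : Pool.Agent.H34.GZ.T_EXD) :
    ∀ m : ℕ, 1 ≤ m →
    (∃ (T : ℕ → Finset (ZM m)) (D : Set (V m)), IsReps m T ∧ IsDomain m D) ∧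
    ∀ ε : ℝ, 0 < ε → ∃ C A : ℝ, 0 < C ∧ 0 < A ∧
      ∀ (T : ℕ → Finset (ZM m)) (D : Set (V m)), IsReps m T → IsDomain m D →
      ∀ (S : ℕ → Type) [∀ N, Fintype (S N)] [∀ N, DecidableEq (S N)]
        (F : ∀ N : ℕ, S N → Mat m → VecMod m N → ℂ) (lam : ∀ N : ℕ, S N → ℕ → ℂ)
        (mu : ∀ N : ℕ, S N → Fin m → ℂ) (Q : ∀ N : ℕ, S N → ℝ),
        (∀ (N : ℕ) [NeZero N], 2 ≤ N →
          (∀ i, IsForm m N T (F N i) (lam N i) (mu N i) ∧
            IsSize D (F N i) (Q N i)) ∧ IsOrthonormal D (F N)) →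
      ∃ L : ∀ N : ℕ, S N → ℂ → ℂ,
        (∀ N : ℕ, 2 ≤ N → ∀ i, IsLFunction m (lam N i) (L N i)) ∧
        (∀ t : ∀ N : ℕ, S N → ℝ,
          (∀ N : ℕ, 2 ≤ N → ∑ i, (‖L N i (1 / 2 + t N i * Complex.I)‖ *
            (Q N i + |t N i|) ^ (-A)) ^ 4 ≤ C * (N : ℝ) ^ ((m : ℝ) + ε)) ∧
          ∀ X : ℕ, ∑ N ∈ Finset.Icc 2 X, ∑ i, (‖L N i (1 / 2 + t N i * Complex.I)‖ *
            (Q N i + |t N i|) ^ (-A)) ^ 4 ≤ C * (X : ℝ) ^ ((m : ℝ) + 1 + ε)) ∧
        ∀ η : ℝ,
          (∀ N : ℕ, 2 ≤ N → ((Finset.univ.filter fun i : S N => ∃ t : ℝ,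
            (Q N i + |t|) ^ A * (N : ℝ) ^ η < ‖L N i (1 / 2 + t * Complex.I)‖).card : ℝ) ≤
              C * (N : ℝ) ^ ((m : ℝ) - 4 * η + ε)) ∧
          ∀ X : ℕ, ((∑ N ∈ Finset.Icc 2 X, (Finset.univ.filter fun i : S N => ∃ t : ℝ,
            (Q N i + |t|) ^ A * (X : ℝ) ^ η < ‖L N i (1 / 2 + t * Complex.I)‖).card : ℕ) : ℝ) ≤
              C * (X : ℝ) ^ ((m : ℝ) + 1 - 4 * η + ε) := by
  intro m hm1
  refine ⟨?_, ?_⟩
  · obtain ⟨T, hT⟩ := h_EXT m hm1
    obtain ⟨D, hD⟩ := h_EXD m hm1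
    exact ⟨T, D, ⟨hT.mem, hT.uniq⟩, ⟨hD.meas, hD.shell, hD.fund⟩⟩
  · intro ε hε
    obtain ⟨C, A, hC, hA, h⟩ := h_MOA m hm1 ε hε
    refine ⟨C, A, hC, hA, ?_⟩
    intro T D hT hD S _ _ F lam mu Q hF
    have hQ : ∀ N, 2 ≤ N → ∀ i : S N, 1 ≤ Q N i := by
      intro N h2 i
      have : NeZero N := ⟨by omega⟩
      exact ((hF N h2).1 i).2.one_le
    -- one level
    have hL : ∀ N, 2 ≤ N → ∃ L : S N → ℂ → ℂ,
        (∀ i, Pool.Agent.H34.GM.IsL m 1 (lam N i) (L i)) ∧ ∀ t : S N → ℝ,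
        ∑ i, (‖L i (1 / 2 + t i * Complex.I)‖ * (Q N i + |t i|) ^ (-A)) ^ 4 ≤
          C * (N : ℝ) ^ ((m : ℝ) + ε) := by
      intro N h2
      have : NeZero N := ⟨by omega⟩
      obtain ⟨hf, ho⟩ := hF N h2
      have hS : Pool.Agent.H34.GZ.SysZ m N T D := ⟨hm1, h2, cv_reps hT, cv_dom hD⟩
      obtain ⟨L, hL1, -⟩ := h N T D hS (S N) (F N) (lam N) (mu N) (Q N)
        (fun i => ⟨cv_form (hf i).1, size_mono (hf i).2 le_rfl⟩) ho
      refine ⟨L, hL1, ?_⟩
      intro t
      obtain ⟨L', hL1', hL2'⟩ := h N T D hS (S N) (F N) (lam N) (mu N)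
        (fun i => Q N i + |t i|)
        (fun i => ⟨cv_form (hf i).1, size_mono (hf i).2 (le_add_of_nonneg_right (abs_nonneg _))⟩)
        ho
      have e : L = L' := funext fun i => l_uniq (hL1 i) (hL1' i)
      rw [e]
      refine hL2' t (fun i => ?_)
      have := (hf i).2.one_le
      linarith
    obtain ⟨L, hL1, hL2⟩ : ∃ L : ∀ N : ℕ, S N → ℂ → ℂ,
        (∀ N, 2 ≤ N → ∀ i : S N, Pool.Agent.H34.GM.IsL m 1 (lam N i) (L N i)) ∧
        ∀ N, 2 ≤ N → ∀ t : S N → ℝ,
        ∑ i, (‖L N i (1 / 2 + t i * Complex.I)‖ * (Q N i + |t i|) ^ (-A)) ^ 4 ≤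
          C * (N : ℝ) ^ ((m : ℝ) + ε) := by
      refine ⟨fun N => if h : 2 ≤ N then (hL N h).choose else fun _ => 0, ?_, ?_⟩
      · intro N h2 i
        simp only [dif_pos h2]
        exact (hL N h2).choose_spec.1 i
      · intro N h2 t
        simp only [dif_pos h2]
        exact (hL N h2).choose_spec.2 t
    have hX : ∀ (X : ℕ) (t : ∀ N : ℕ, S N → ℝ),
        ∑ N ∈ Finset.Icc 2 X, ∑ i, (‖L N i (1 / 2 + t N i * Complex.I)‖ *
          (Q N i + |t N i|) ^ (-A)) ^ 4 ≤ C * (X : ℝ) ^ ((m : ℝ) + 1 + ε) := by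
      intro X t
      have hmp : (0 : ℝ) ≤ m := by positivity
      rcases Nat.eq_zero_or_pos X with h0 | h0
      · rw [h0, Finset.Icc_eq_empty (by omega), Finset.sum_empty]
        positivity
      have hXp : (0 : ℝ) < X := by exact_mod_cast h0
      calc ∑ N ∈ Finset.Icc 2 X, ∑ i,
          (‖L N i (1 / 2 + t N i * Complex.I)‖ * (Q N i + |t N i|) ^ (-A)) ^ 4 ≤
          ∑ _N ∈ Finset.Icc 2 X, C * (X : ℝ) ^ ((m : ℝ) + ε) := by
            refine Finset.sum_le_sum (fun N hN => (hL2 N (Finset.mem_Icc.1 hN).1 (t N)).trans ?_)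
            refine mul_le_mul_of_nonneg_left ?_ hC.le
            refine Real.rpow_le_rpow (by positivity) ?_ (by positivity)
            exact_mod_cast (Finset.mem_Icc.1 hN).2
        _ = ((Finset.Icc 2 X).card : ℝ) * (C * (X : ℝ) ^ ((m : ℝ) + ε)) := by
            rw [Finset.sum_const, nsmul_eq_mul]
        _ ≤ (X : ℝ) * (C * (X : ℝ) ^ ((m : ℝ) + ε)) := by
            refine mul_le_mul_of_nonneg_right ?_ (by positivity)
            rw [Nat.card_Icc]
            have : X + 1 - 2 ≤ X := by omega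
            exact_mod_cast this
        _ = C * (X : ℝ) ^ ((m : ℝ) + 1 + ε) := by
            have e : (X : ℝ) ^ ((m : ℝ) + 1 + ε) = (X : ℝ) * (X : ℝ) ^ ((m : ℝ) + ε) := by
              rw [show (m : ℝ) + 1 + ε = 1 + ((m : ℝ) + ε) by ring, Real.rpow_add hXp,
                Real.rpow_one]
            rw [e]
            ring
    refine ⟨L, fun N h2 i => cv_l (hL1 N h2 i), fun t => ⟨fun N h2 => hL2 N h2 (t N),
      fun X => hX X t⟩, ?_⟩
    intro η
    -- the points with large values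
    have key : ∀ Y : ℝ, 0 < Y → ∃ t : ∀ N : ℕ, S N → ℝ, ∀ N : ℕ, 2 ≤ N → ∀ i : S N, (∃ t : ℝ,
        (Q N i + |t|) ^ A * Y ^ η < ‖L N i (1 / 2 + t * Complex.I)‖) → Y ^ (4 * η) ≤
          (‖L N i (1 / 2 + t N i * Complex.I)‖ * (Q N i + |t N i|) ^ (-A)) ^ 4 := by
      intro Y hY
      refine ⟨fun N i => if h : ∃ t : ℝ, (Q N i + |t|) ^ A * Y ^ η <
        ‖L N i (1 / 2 + t * Complex.I)‖ then h.choose else 0, ?_⟩
      intro N h2 i hi
      simp only [dif_pos hi]
      exact exc_big _ A Y η _ hY (by have := hQ N h2 i; positivity) hi.choose_spec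
    have hn : ∀ (t : ∀ N : ℕ, S N → ℝ) (N : ℕ) (i : S N),
        0 ≤ (‖L N i (1 / 2 + t N i * Complex.I)‖ * (Q N i + |t N i|) ^ (-A)) ^ 4 :=
      fun t N i => Even.pow_nonneg (by decide) _
    have hdiv : ∀ (Y x e : ℝ), 0 < Y → x * Y ^ (4 * η) ≤ C * Y ^ e → x ≤ C * Y ^ (e - 4 * η) := by
      intro Y x e hY h1
      rw [sub_eq_add_neg, Real.rpow_add hY, Real.rpow_neg hY.le, ← mul_assoc, ← div_eq_mul_inv,
        le_div_iff₀ (Real.rpow_pos_of_pos hY _)]
      exact h1
    refine ⟨?_, ?_⟩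
    · intro N h2
      have hN : (0 : ℝ) < N := by
        have : 0 < N := by omega
        exact_mod_cast this
      obtain ⟨t, ht⟩ := key N hN
      have h1 := (exc_card (fun i : S N => ∃ t : ℝ,
        (Q N i + |t|) ^ A * (N : ℝ) ^ η < ‖L N i (1 / 2 + t * Complex.I)‖) _ _
        (hn t N) (ht N h2)).trans (hL2 N h2 (t N))
      have h3 := hdiv N _ _ hN h1
      rw [show (m : ℝ) - 4 * η + ε = (m : ℝ) + ε - 4 * η by ring]
      exact h3
    · intro X
      rcases Nat.eq_zero_or_pos X with h0 | h0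
      · rw [h0, Finset.Icc_eq_empty (by omega), Finset.sum_empty, Nat.cast_zero]
        positivity
      have hXp : (0 : ℝ) < X := by exact_mod_cast h0
      obtain ⟨t, ht⟩ := key X hXp
      have h1 : ((∑ N ∈ Finset.Icc 2 X, (Finset.univ.filter fun i : S N => ∃ t : ℝ,
          (Q N i + |t|) ^ A * (X : ℝ) ^ η < ‖L N i (1 / 2 + t * Complex.I)‖).card : ℕ) : ℝ) *
            (X : ℝ) ^ (4 * η) ≤ C * (X : ℝ) ^ ((m : ℝ) + 1 + ε) := by
        refine le_trans ?_ (hX X t)
        rw [Nat.cast_sum, Finset.sum_mul]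
        exact Finset.sum_le_sum (fun N hN => exc_card _ _ _ (hn t N)
          (ht N (Finset.mem_Icc.1 hN).1))
      have h3 := hdiv X _ _ hXp h1
      rw [show (m : ℝ) + 1 - 4 * η + ε = (m : ℝ) + 1 + ε - 4 * η by ring]
      exact h3

end Pool.Agent.H68.GA.ResDraft
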